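import Pool.Agent.H18.Pga3

open Pool.Agent.H18.Pga

namespace Pool.Agent.Results.MP_3cbb73_an.Rate

theorem joined (C₁ C₂ : ℝ) (h0 : 0 < C₁) (h1 : C₁ ≤ 1) (h2 : 1 ≤ C₂) :
    (1 / 2 < C₁ ^ 2 → ∃ c C : ℝ, 0 < c ∧ 0 < C ∧
      ∀ (H : Type) [NormedAddCommGroup H] [InnerProductSpace ℝ H] [CompleteSpace H]
        [TopologicalSpace.SeparableSpace H], ¬ FiniteDimensional ℝ H → ∀ m : ℕ, 1 ≤ m →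
        c * (m : ℝ) ^ (-(1 / 2) : ℝ) ≤ gamma H C₁ C₂ m ∧
          gamma H C₁ C₂ m ≤ C * (m : ℝ) ^ (-(1 / 2) : ℝ)) ∧
    ∀ r : ℝ, 0 ≤ r → r ≤ 1 / 2 → r < 2 * C₁ ^ 2 - 1 / 2 → ∃ C : ℝ, 0 < C ∧
      ∀ (H : Type) [NormedAddCommGroup H] [InnerProductSpace ℝ H] (m : ℕ), 1 ≤ m →
        ∀ (D : Set H) (f : H) (R : ℕ → H), RB C₁ C₂ D → f ∈ A1 D → IsPGA D f R →
          ‖R m‖ ≤ C * (m : ℝ) ^ (-r) := by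
  refine ⟨fun h => ?_, fun r a b c => upper C₂ h0 h1 a b c⟩
  obtain ⟨C, hC, hu⟩ := upper (r := 1 / 2) C₂ h0 h1 (by norm_num) le_rfl (by linarith)
  refine ⟨1 / 2, C, by norm_num, hC, fun H _ _ _ _ hH m hm => ⟨le_csSup ⟨C * (m : ℝ) ^ (-(1 / 2) : ℝ),
    ?_⟩ (lower h1 h2 H hH m hm), Real.sSup_le ?_ (by positivity)⟩⟩ <;>
  · rintro _ ⟨D, f, R, a, b, c, rfl⟩
    exact hu H m hm D f R a b c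

theorem result (C₁ C₂ : ℝ) (h0 : 0 < C₁) (h1 : C₁ ≤ 1) (h2 : 1 ≤ C₂)
    (r : ℝ) (hr0 : 0 ≤ r) (hr1 : r ≤ 1 / 2) (hr : r < 2 * C₁ ^ 2 - 1 / 2) : ∃ C : ℝ, 0 < C ∧
      ∀ (H : Type) [NormedAddCommGroup H] [InnerProductSpace ℝ H] (m : ℕ), 1 ≤ m →
        ∀ (D : Set H) (f : H) (R : ℕ → H), RB C₁ C₂ D → f ∈ A1 D → IsPGA D f R →
          ‖R m‖ ≤ C * (m : ℝ) ^ (-r) :=
  (joined C₁ C₂ h0 h1 h2).2 r hr0 hr1 hr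

end Pool.Agent.Results.MP_3cbb73_an.Rate
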